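import Mathlib
import Pool.Agent.V1129.ScottMain

set_option autoImplicit false

/-!
Core-free `ℤ`-coset equivalent subgroups need not be isomorphic.
-/

namespace Pool.Agent.Results.MP_997916_al.NotIso

open Pool.Agent.V1129.Scott

/-- There are a finite group `G` and two core-free subgroups `A`, `B` of `G` which are
`ℤ`-coset equivalent (`ℤ[G/A] ≅ ℤ[G/B]` as `ℤ[G]`-modules) and not isomorphic. -/
theorem result :
    ∃ (G : Type) (_ : Group G) (_ : Finite G) (A B : Subgroup G),
      (∀ N : Subgroup G, N.Normal → N ≤ A → N = ⊥) ∧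
      (∀ N : Subgroup G, N.Normal → N ≤ B → N = ⊥) ∧
      CosetEquiv A B ∧ IsEmpty (A ≃* B) := by
  obtain ⟨G, i1, i2, A, B, hA, hB, h, h'⟩ := main al be 0 0 trX trY eXY eXY_equiv faith hfix
  refine ⟨G, i1, i2, A, B, ?_, ?_, h, h'⟩
  · intro N hN hNA
    rw [eq_bot_iff, ← hA]
    exact (Subgroup.normal_le_normalCore (H := A) (N := N)).2 hNA
  · intro N hN hNB
    rw [eq_bot_iff, ← hB]
    exact (Subgroup.normal_le_normalCore (H := B) (N := N)).2 hNB

end Pool.Agent.Results.MP_997916_al.NotIso
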